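import Pool.Agent.Helper57.ZF.Goals

/-! Proof of `G_BLG` (packet ZF BLG for helper57). -/

set_option autoImplicit false

namespace Pool.Agent.Helper32.ZF

open Pool.Agent.Helper57.ZF

lemma lin_mono {α β : Type} {T S : Finset α} (hTS : T ⊆ S) {F : Finset β} {R : α → β → Prop}
    (h : Lin S F R) : Lin T F R := fun p hp q hq => h p (hTS hp) q (hTS hq)

open scoped Classical in
/-- choice of the half -/
lemma choose_half {E : Type} [NormedAddCommGroup E] [NormedSpace ℝ E]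
    (S : Finset (E × E)) (w : E × E) (k : ℕ) (hk : k ≤ S.card) (b : ℝ) (hb : b < 0 ∨ 0 < b) :
    ∃ T ⊆ S, T.card = (k + 1) / 2 ∧
      (b < 0 ∨ (0 < b ∧ ∀ p ∈ T, dist p w ≤ dist p.2 w.2) ∨
        (0 < b ∧ ∀ p ∈ T, dist p w ≤ dist p.1 w.1)) := by
  rcases hb with hb | hb
  · obtain ⟨T, hT, hc⟩ := Finset.exists_subset_card_eq (show (k + 1) / 2 ≤ S.card by omega)
    exact ⟨T, hT, hc, Or.inl hb⟩
  · set A := S.filter (fun p : E × E => dist p w ≤ dist p.2 w.2) with hA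
    set B := S.filter (fun p : E × E => ¬ dist p w ≤ dist p.2 w.2) with hB
    have hAB : A.card + B.card = S.card :=
      Finset.card_filter_add_card_filter_not (s := S) _
    by_cases h : (k + 1) / 2 ≤ A.card
    · obtain ⟨T, hT, hc⟩ := Finset.exists_subset_card_eq h
      refine ⟨T, hT.trans (Finset.filter_subset _ _), hc, Or.inr (Or.inl ⟨hb, fun p hp => ?_⟩)⟩
      exact (Finset.mem_filter.mp (hT hp)).2
    · have hB' : (k + 1) / 2 ≤ B.card := by omega
      obtain ⟨T, hT, hc⟩ := Finset.exists_subset_card_eq hB'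
      refine ⟨T, hT.trans (Finset.filter_subset _ _), hc, Or.inr (Or.inr ⟨hb, fun p hp => ?_⟩)⟩
      have h1 := (Finset.mem_filter.mp (hT hp)).2
      rw [Prod.dist_eq] at h1 ⊢
      rcases le_total (dist p.1 w.1) (dist p.2 w.2) with h2 | h2
      · exact absurd (max_le h2 le_rfl) h1
      · exact max_le le_rfl h2

open scoped Classical in
theorem BLG (h1 : G_CNT) (h2 : G_LOC) (h3 : G_LOCY) (h4 : G_LOCX) : G_BLG := by
  intro E _ _ S F₁ F₂ k w b ρ hF1 hF2 hL1 hL2 hk1 hk2 hkS hb hS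
  rcases Nat.eq_zero_or_pos k with h0 | hpos
  · exact ⟨∅, Finset.empty_subset _, ∅, Finset.empty_subset _, by simp [h0], by simp [h0],
      by simp⟩
  obtain ⟨T, hTS, hTc, hT⟩ := choose_half S w k hkS b hb
  have c1 := h1 (E × E) ((E →L[ℝ] E) × E) T F₁ On k (fun p hp => hk1 p (hTS hp)) (by omega)
    (lin_mono hTS hL1)
  have c2 := h1 (E × E) ((E →L[ℝ] E) × E) T F₂ Ov k (fun p hp => hk2 p (hTS hp)) (by omega)
    (lin_mono hTS hL2)
  rw [cnt_eq, hTc] at c1 c2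
  have hkk : k * k ≤ 2 * ((k + 1) / 2 * k) := by
    have : k ≤ 2 * ((k + 1) / 2) := by omega
    calc k * k ≤ (2 * ((k + 1) / 2)) * k := Nat.mul_le_mul_right k this
      _ = _ := by ring
  refine ⟨F₁.filter (fun f => ∃ p ∈ T, On p f), Finset.filter_subset _ _,
    F₂.filter (fun f => ∃ p ∈ T, Ov p f), Finset.filter_subset _ _, by omega, by omega, ?_⟩
  intro f hf g hg z hzf hzg
  obtain ⟨hfF, p, hpT, hpf⟩ := Finset.mem_filter.mp hf
  obtain ⟨hgF, q, hqT, hqg⟩ := Finset.mem_filter.mp hg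
  have hp := hS p (hTS hpT)
  have hq := hS q (hTS hqT)
  refine ⟨?_, h2 E f g w p q z ρ (hF1 f hfF) (hF2 g hgF) hp.1 hq.1 hpf hzf hqg hzg⟩
  rcases hT with hb | ⟨hb, hT⟩ | ⟨hb, hT⟩
  · exact lt_of_lt_of_le hb dist_nonneg
  · exact h3 E f w p z b (hF1 f hfF) hb hp.2 (hT p hpT) hpf hzf
  · exact h4 E g w q z b (hF2 g hgF) hb hq.2 (hT q hqT) hqg hzg

end Pool.Agent.Helper32.ZF
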